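import Pool.Agent.HUK.Stmts
import Pool.Agent.HIK.All

/-! HUK, row HCU: Hilbert's irreducibility theorem for finite quotients, uniformly over all algebraic
points.  Edit of `Helper28_HIP/HCI.lean`. -/

set_option autoImplicit false

namespace Pool.Agent.HUK.H28

open Polynomial NumberField Matrix Pool.Agent.MTL Pool.Agent.MTL.H34 Pool.Agent.Helper78_MT
  Pool.Agent.HIK Pool.Agent.HIP Pool.Agent.MTPN Pool.Agent.MTN

/-- the elements fixed by the action on `BB` -/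
theorem coe_smul_BB (σ : GT) (b : BB) : ((σ • b : BB) : Om) = σ (b : Om) := rfl

theorem isAlg_smul (σ : GT) {b : BB} (hb : IsAlgebraic ℚ (b : Om)) :
    IsAlgebraic ℚ ((σ • b : BB) : Om) := by
  rw [coe_smul_BB]
  exact (Pool.Agent.HIK.H55R.isIntegral_sigma σ hb.isIntegral).isAlgebraic

/-- the elements of the Galois group fix `t` -/
theorem smul_tt (σ : GT) : σ • (algebraMap ℚ[X] BB X) = algebraMap ℚ[X] BB X := by
  apply Subtype.ext
  rw [coe_smul_BB]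
  have h : ((algebraMap ℚ[X] BB X : BB) : Om) =
      algebraMap (RatFunc ℚ) Om (algebraMap ℚ[X] (RatFunc ℚ) X) := by
    rw [← IsScalarTower.algebraMap_apply]
    rfl
  rw [h]
  exact σ.commutes _

theorem ggeo_le_gph {k : Type} [Field k] [NumberField k] (φ : k →+* Om) : Ggeo ≤ Gph φ := by
  intro σ hσ c
  exact hσ _ (Pool.Agent.HIK.H55R.isIntegral_phi φ c).isAlgebraic

theorem hcu (csn : CsnStmt) (sti : StiStmt) (ctp : CtpStmt) (reu : ReuStmt) (win : WinStmt)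
    (spc : SpcStmt) : HcuStmt := by
  classical
  intro N hNn hNo
  have := hNn
  have hfin : Finite (GT ⧸ N) := Subgroup.quotient_finite_of_isOpen N hNo
  obtain ⟨k, hk1, hk2, φ, hφ⟩ := csn N hNn hNo
  have hle : ∀ D' : Subgroup (GT ⧸ N), N ≤ D'.comap (QuotientGroup.mk' N) := by
    intro D' σ hσ
    rw [Subgroup.mem_comap, QuotientGroup.mk'_apply, (QuotientGroup.eq_one_iff σ).2 hσ]
    exact D'.one_mem
  have hcl : ∀ D' : Subgroup (GT ⧸ N),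
      IsClosed ((D'.comap (QuotientGroup.mk' N) : Subgroup GT) : Set GT) := fun D' =>
    Subgroup.isClosed_of_isOpen _ (Subgroup.isOpen_mono (H₁ := N) (hle D') hNo)
  choose x g hadm hgx hfix using
    fun D : {D' : Subgroup (GT ⧸ N) // ¬ Gph φ ≤ D'.comap (QuotientGroup.mk' N)} =>
      sti N k φ hφ _ (hle D.1) (hcl D.1) D.2
  refine ⟨⋃ D, RtSet k (g D), (spc QB (1 / 4)).2.1 _ _ fun D => win k _ (hadm D), ?_⟩
  intro π hπ
  obtain ⟨c1, c2, c3⟩ := ctp π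
  obtain ⟨α, hα⟩ : ∃ α : QB, α = π (algebraMap ℚ[X] BB X) := ⟨_, rfl⟩
  obtain ⟨c, hc, hcα⟩ := c1 α
  refine ⟨c, hc, hcα.trans hα, fun γ hγ => ?_⟩
  obtain ⟨D', hD'⟩ : ∃ D' : Subgroup (GT ⧸ N),
    D' = (decG π ⊓ Gph φ).map (QuotientGroup.mk' N) := ⟨_, rfl⟩
  have htop : Gph φ ≤ D'.comap (QuotientGroup.mk' N) := by
    by_contra hno
    apply hπ
    rw [Set.mem_iUnion]
    refine ⟨⟨D', hno⟩, reu k φ π (x ⟨D', hno⟩) (g ⟨D', hno⟩) (hadm ⟨D', hno⟩).monic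
      (hgx ⟨D', hno⟩) fun σ hσ hσφ => hfix ⟨D', hno⟩ σ ?_ hσφ⟩
    rw [Subgroup.mem_comap]
    change QuotientGroup.mk' N σ ∈ D'
    rw [hD']
    exact Subgroup.mem_map_of_mem _ ⟨hσ, hσφ⟩
  obtain ⟨τ, hτ⟩ := c3 γ
  have hτα : τ α = α := by
    rw [← hcα, ← hτ c hc, hγ]
  obtain ⟨σ₁, hσ₁⟩ := (dekA α π hα.symm).2 τ hτα
  have hagree : ∀ b : BB, IsAlgebraic ℚ (b : Om) → σ₁ • b = γ • b := fun b hb =>
    c2 _ _ (isAlg_smul σ₁ hb) (isAlg_smul γ hb) (by rw [hσ₁, hτ b hb])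
  have hgeo : σ₁⁻¹ * γ ∈ Ggeo := by
    intro y hy
    obtain ⟨b, hb⟩ : ∃ b : BB, (b : Om) = y :=
      ⟨⟨y, Pool.Agent.HIK.H55R.mem_BB_of_isIntegral hy.isIntegral⟩, rfl⟩
    have h1 := hagree b (by rw [hb]; exact hy)
    have h2 : (σ₁⁻¹ * γ) • b = b := by
      rw [mul_smul, ← h1, inv_smul_smul]
    have h3 := congrArg (fun z : BB => (z : Om)) h2
    rw [← hb]
    exact h3
  obtain ⟨σ₂, hσ₂, hσ₂γ⟩ : ∃ σ₂ ∈ decG π ⊓ Gph φ,
      QuotientGroup.mk' N σ₂ = QuotientGroup.mk' N (σ₁⁻¹ * γ) := by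
    have h := htop (ggeo_le_gph φ hgeo)
    rw [Subgroup.mem_comap, hD'] at h
    exact h
  have hσ : σ₁ * σ₂ ∈ decG π := (decG π).mul_mem ⟨τ, hσ₁⟩ hσ₂.1
  refine ⟨σ₁ * σ₂, hσ, ?_, ?_⟩
  · obtain ⟨τ', hτ'⟩ := hσ
    apply c2 _ _ (isAlg_smul _ hc) hc
    rw [hτ' c, hcα, hα, ← hτ', smul_tt]
  · rw [QuotientGroup.mk'_apply, QuotientGroup.mk'_apply] at hσ₂γ
    have h := QuotientGroup.eq.1 hσ₂γ
    rw [_root_.mul_inv_rev, mul_assoc]
    exact h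

end Pool.Agent.HUK.H28
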